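import Pool.Agent.helper60.DA.SpecW

/-! Row `dw:F8`, from `VEX`, `VTX`, `E8`, `SQ`, `ST`. -/

set_option autoImplicit false

namespace Pool.Agent.helper60.DA

open Polynomial Finset Pool.Agent.helper60.DK

theorem F8_coeff (p i : ℕ) (hi : i < 3 * hh p + 1) : (St p).coeff i = (Sz p).coeff i := by
  unfold St
  rw [finset_sum_coeff, Finset.sum_eq_single i]
  · rw [coeff_C_mul, coeff_X_pow, if_pos rfl, mul_one]
  · intro j _ hj
    rw [coeff_C_mul, coeff_X_pow, if_neg hj.symm, mul_zero]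
  · intro h
    exact absurd (Finset.mem_range.2 hi) h

theorem F8_eval (p : ℕ) (z : ℤ) :
    (St p).eval z = ∑ i ∈ range (3 * hh p + 1), (Sz p).coeff i * z ^ i := by
  unfold St
  rw [eval_finset_sum]
  refine Finset.sum_congr rfl fun i _ => ?_
  rw [eval_mul, eval_C, eval_pow, eval_X]

theorem F8_Nz (p : ℕ) :
    (Nz p).eval 2 = ∑ i ∈ range (3 * hh p + 1), (Sz p).coeff i * 8 ^ (3 * hh p - i) := by
  unfold Nz rv
  rw [eval_finset_sum]
  refine Finset.sum_congr rfl fun i hi => ?_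
  rw [eval_mul, eval_C, eval_pow, eval_X, F8_coeff p i (Finset.mem_range.1 hi), mul_assoc,
    ← mul_pow]
  norm_num

theorem F8_Nz_mod (p : ℕ) (t : ℤ) (ht : 8 * (t : ZMod (p ^ 2)) = 1) :
    (((Nz p).eval 2 : ℤ) : ZMod (p ^ 2)) =
      8 ^ (3 * hh p) * (((St p).eval t : ℤ) : ZMod (p ^ 2)) := by
  rw [F8_Nz, F8_eval]
  push_cast
  rw [Finset.mul_sum]
  refine Finset.sum_congr rfl fun i hi => ?_
  have hi' : i ≤ 3 * hh p := by
    have := Finset.mem_range.1 hi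
    omega
  have e : (8 : ZMod (p ^ 2)) ^ (3 * hh p) = 8 ^ (3 * hh p - i) * 8 ^ i := by
    rw [← pow_add, Nat.sub_add_cancel hi']
  have e2 : (8 : ZMod (p ^ 2)) ^ i * (t : ZMod (p ^ 2)) ^ i = 1 := by
    rw [← mul_pow, ht, one_pow]
  rw [e]
  linear_combination (-((((Sz p).coeff i : ℤ) : ZMod (p ^ 2)) * 8 ^ (3 * hh p - i))) * e2

theorem F8_red (h : ST_stmt) (p : ℕ) [Fact p.Prime] (h5 : 5 ≤ p) : red p (St p) = Wp p := by
  obtain ⟨Z, hZ⟩ := h p h5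
  rw [← S_eq_W h5, hZ]
  have e : red p (C ((p : ℤ) ^ 2) * Z) = 0 := by
    unfold red
    rw [Polynomial.map_mul, Polynomial.map_C]
    have : (Int.castRingHom (ZMod p)) ((p : ℤ) ^ 2) = 0 := by simp
    rw [this, C_0, zero_mul]
  unfold red at e ⊢
  rw [Polynomial.map_add, e, add_zero]

theorem F8_qc (p : ℕ) [Fact p.Prime] {t : ZMod p} (ht : t ≠ 0) : qc p t * qc p t = 1 := by
  unfold qc
  rw [← Int.cast_mul, ← sq, quadraticChar_sq_one ht, Int.cast_one]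

theorem F8_alg {R : Type} [CommRing R] (a b q2 q3 s s' x2 x3 n : R) (ha : a * a = 0)
    (hb : b * b = 0) (hab : a * b = 0) (h2 : q2 * q2 = 1) (h3 : q3 * q3 = 1)
    (e2 : x2 = q2 * (1 + a)) (e3 : x3 = q3 * (1 + b))
    (e : x3 * (x2 ^ 9 * s) = x3 ^ 2 * s' + n) (hn : n = s' * (-b + 9 * a)) :
    s = q2 * q3 * s' := by
  have hp : x2 ^ 9 = q2 * (1 + 9 * a) := by
    have h4 : q2 ^ 9 = q2 := by
      linear_combination (q2 * (1 + q2 ^ 2 + q2 ^ 4 + q2 ^ 6)) * h2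
    have h5 : (1 + a) ^ 9 = 1 + 9 * a := by
      linear_combination (a ^ 7 + 9 * a ^ 6 + 36 * a ^ 5 + 84 * a ^ 4 + 126 * a ^ 3 + 126 * a ^ 2
        + 84 * a + 36) * ha
    rw [e2, mul_pow, h4, h5]
  have h9 : x3 ^ 2 = 1 + 2 * b := by
    rw [e3]
    linear_combination ((1 + b) ^ 2) * h3 + hb
  have k1 : q3 * q2 * ((1 + (b + 9 * a)) * s) = (1 + (b + 9 * a)) * s' := by
    rw [hp, h9, hn, e3] at e
    linear_combination e - (9 * q3 * q2 * s) * hab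
  have k2 : (1 - (b + 9 * a)) * (1 + (b + 9 * a)) = 1 := by
    linear_combination (-1 : R) * hb - 18 * hab - 81 * ha
  have k3 : q3 * q2 * s = s' := by
    linear_combination (1 - (b + 9 * a)) * k1 - (q3 * q2 * s) * k2 + s' * k2
  rw [← k3]
  linear_combination (-(s * (q3 * q3))) * h2 - s * h3

theorem F8 (hVEX : VEX_stmt) (hVTX : VTX_stmt) (hE8 : E8_stmt) (hSQ : SQ_stmt) (hST : ST_stmt) :
    F8_stmt := by
  intro p _ hp hp3 t ht
  have h5 : 5 ≤ p := by omega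
  obtain ⟨V, hV⟩ := (hVEX p h5).1
  obtain ⟨V2, hV2⟩ := (hVTX p h5).1
  have hE := hE8 p hp hp3 V V2 hV hV2
  obtain ⟨hs2, hs3⟩ := hSQ p h5
  have h1 := congrArg (Polynomial.eval 2) hV2
  rw [eval_mul, eval_pow, eval_add, eval_one, eval_X, eval_add, eval_mul, eval_pow, eval_add,
    eval_one, eval_mul, eval_X, eval_mul, eval_C] at h1
  have e4 : (Polynomial.eval 2 (4 : ℤ[X])) = 4 := by simp
  rw [e4] at h1
  have h2 := congrArg (Int.cast : ℤ → ZMod (p ^ 2)) h1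
  push_cast at h2
  rw [F8_Nz_mod p t ht] at h2
  have hW : rd p (((St p).eval 2 : ℤ) : ZMod (p ^ 2)) = (Wp p).eval 2 := by
    rw [rd_intCast, ← F8_red hST p h5]
    have := Polynomial.eval_intCast_map (Int.castRingHom (ZMod p)) (St p) 2
    simpa using this.symm
  have hV2e : (((V2.eval 2 : ℤ)) : ZMod p) = (red p V2).eval 2 := by
    have := Polynomial.eval_intCast_map (Int.castRingHom (ZMod p)) V2 2
    simpa using this.symm
  have h9 : rd p 9 = 9 := map_ofNat (rd p) 9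
  have hc : lp p (-(1 / 2) * Q3 p + 9 / 2 * Q2 p) =
      -lp p (Q3 p / 2) + 9 * lp p (Q2 p / 2) := by
    rw [mul_lp, ← lp_neg, ← lp_add, h9]
    refine congrArg (lp p) ?_
    ring
  have hn : (p : ZMod (p ^ 2)) * ((V2.eval 2 : ℤ) : ZMod (p ^ 2)) =
      (((St p).eval 2 : ℤ) : ZMod (p ^ 2)) * (-lp p (Q3 p / 2) + 9 * lp p (Q2 p / 2)) := by
    rw [← hc, mul_lp, hW, ← hE, ← hV2e, lp_intCast]
  have e2 : (8 : ZMod (p ^ 2)) ^ (3 * hh p) = ((2 : ZMod (p ^ 2)) ^ hh p) ^ 9 := by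
    have : (8 : ZMod (p ^ 2)) = 2 ^ 3 := by norm_num
    rw [this, ← pow_mul, ← pow_mul]
    congr 1
    ring
  have e3 : (9 : ZMod (p ^ 2)) ^ hh p = ((3 : ZMod (p ^ 2)) ^ hh p) ^ 2 := by
    have : (9 : ZMod (p ^ 2)) = 3 ^ 2 := by norm_num
    rw [this, ← pow_mul, ← pow_mul, mul_comm]
  rw [e2, e3] at h2
  exact F8_alg (lp p (Q2 p / 2)) (lp p (Q3 p / 2)) (qc p 2) (qc p 3) _ _ _ _ _
    (lp_mul_lp _ _) (lp_mul_lp _ _) (lp_mul_lp _ _) (F8_qc p (two_ne h5)) (F8_qc p (three_ne h5))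
    hs2 hs3 h2 hn

end Pool.Agent.helper60.DA
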