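import Pool.Agent.helper60.DA.SpecV

/-! Row `dv:FOS`, from `VEX`, `FO`, `HM`, `HW`. -/

set_option autoImplicit false

namespace Pool.Agent.helper60.DA

open Polynomial Finset Pool.Agent.helper60.DK

/-- the purely algebraic end of the proof -/
theorem FOS_alg {F : Type} [Field F] (V0 W0 V1 W1 V0' W0' D D' : F[X]) (κ t : F) (p h : ℕ)
    (hp : 1 ≤ p) (h2 : (2 : F) ≠ 0) (hκ : κ ≠ 0) (hD : D ≠ 0) (hX : (X ^ 2 - 1 : F[X]) ≠ 0)
    (ht : t = κ)
    (e1 : (X ^ 2 - 1) * (3 * (V1 * W0 - V0 * W1) + C (3 / 2) * W0 ^ 2)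
      = C (3 / 2) * ((X ^ 2 - 1) ^ p * ((C t * X ^ (2 * h)) * W0)))
    (hph : 2 * h + 1 = p)
    (e2 : (4 - X ^ 2) * (V0' * W0 - V0 * W0') = 6 * X * (V1 * W0 - V0 * W1))
    (eW : W0 = C κ * D ^ 2) (eW' : W0' = C κ * (2 * (D * D'))) :
    (4 - X ^ 2) * (V0' * D - 2 * (V0 * D')) = C (3 * κ) * (D * (X ^ p * (X ^ 2 - 1) ^ (p - 1)
      - X * D ^ 2)) := by
  subst ht
  have hc : (2 : F[X]) * C (3 / 2 : F) = 3 := by
    have : (2 : F[X]) = C (2 : F) := (map_ofNat C 2).symm
    rw [this, ← C_mul, mul_div_cancel₀ _ h2]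
    exact map_ofNat C 3
  have hpp : (X ^ 2 - 1 : F[X]) ^ p = (X ^ 2 - 1) * (X ^ 2 - 1) ^ (p - 1) := by
    rw [← pow_succ', Nat.sub_add_cancel hp]
  have hXp : (X : F[X]) ^ p = X * X ^ (2 * h) := by
    rw [← pow_succ', hph]
  have h3 : (C (3 * t) : F[X]) = 3 * C t := by
    rw [C_mul]
    rw [map_ofNat C 3]
  have e3 : (X ^ 2 - 1) * ((4 - X ^ 2) * (V0' * W0 - V0 * W0') + 3 * X * W0 ^ 2)
      = (X ^ 2 - 1) * (3 * X * ((X ^ 2 - 1) ^ (p - 1) * ((C t * X ^ (2 * h)) * W0))) := by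
    rw [hpp] at e1
    linear_combination (X ^ 2 - 1) * e2 + (2 * X) * e1 - ((X ^ 2 - 1) * X * W0 ^ 2) * hc +
      (X * ((X ^ 2 - 1) * (X ^ 2 - 1) ^ (p - 1) * ((C t * X ^ (2 * h)) * W0))) * hc
  have e4 := mul_left_cancel₀ hX e3
  have hCκ : (C t : F[X]) ≠ 0 := by
    rw [Ne, C_eq_zero]
    exact hκ
  have e5 : (C t * D) * ((4 - X ^ 2) * (V0' * D - 2 * (V0 * D'))) =
      (C t * D) * (C (3 * t) * (D * (X ^ p * (X ^ 2 - 1) ^ (p - 1) - X * D ^ 2))) := by
    rw [eW, eW'] at e4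
    rw [h3, hXp]
    linear_combination e4
  exact mul_left_cancel₀ (mul_ne_zero hCκ hD) e5

theorem FOS_hm_one {R : Type} [CommRing R] : hm 0 (1 : R[X]) = 1 := by
  simp [hm]

theorem FOS_hm_pow (h : HM_stmt) {R : Type} [CommRing R] (f : R[X]) (hf : f.natDegree ≤ 1)
    (n : ℕ) : hm n (f ^ n) = hm 1 f ^ n := by
  obtain ⟨hmul, -⟩ := h R
  induction n with
  | zero => simpa using FOS_hm_one
  | succ n ih =>
    rw [pow_succ, hmul n 1 (f ^ n) f ?_ hf, ih, pow_succ]
    calc (f ^ n).natDegree ≤ n * f.natDegree := natDegree_pow_le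
      _ ≤ n * 1 := Nat.mul_le_mul_left _ hf
      _ = n := mul_one n

theorem FOS_Ds_ne (p : ℕ) [Fact p.Prime] : Ds p ≠ 0 := by
  intro h0
  have h1 : (Ds p).eval 1 = 1 := by
    unfold Ds ys
    rw [eval_comp]
    simp only [eval_mul, eval_C, eval_pow, eval_sub, eval_X, eval_one, sub_self, ne_eq,
      OfNat.ofNat_ne_zero, not_false_eq_true, zero_pow, zero_mul, mul_zero]
    rw [← coeff_zero_eq_eval_zero, coeff_map, coeff_Dz]
    simp
  rw [h0, eval_zero] at h1
  exact zero_ne_one h1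

theorem FOS (hVEX : VEX_stmt) (hFO : FO_stmt) (hHM : HM_stmt) (hHW : HW_stmt) : FOS_stmt := by
  intro p _ hp hp3 V hV
  have h5 : 5 ≤ p := by omega
  have hph : 2 * hh p + 1 = p := two_hh h5
  have hVd : (red p V).natDegree ≤ 3 * hh p :=
    natDegree_map_le.trans ((hVEX p h5).2 V hV).1
  have hWd : (Wp p).natDegree ≤ 3 * hh p := natDegree_Wp h5
  have hfo := hFO p hp hp3 V hV
  obtain ⟨hmul, hadd, hC, ⟨hX1, hX2, hX3⟩, hder⟩ := hHM (ZMod p)
  have hW0 := hHW p h5
  set v := red p V with hv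
  set W := Wp p with hWdef
  set h := hh p with hh0
  have hh3 : 3 ≤ h := by omega
  have hvd' : (derivative v).natDegree ≤ 3 * h - 1 := by
    refine (natDegree_derivative_le v).trans ?_
    omega
  have hWd' : (derivative W).natDegree ≤ 3 * h - 1 := by
    refine (natDegree_derivative_le W).trans ?_
    omega
  -- the degrees
  have d1 : (X : (ZMod p)[X]).natDegree ≤ 1 := natDegree_X_le
  have d2 : (1 + X : (ZMod p)[X]).natDegree ≤ 1 := by
    refine (natDegree_add_le _ _).trans ?_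
    simp [natDegree_X_le]
  have d3 : (1 + 4 * X : (ZMod p)[X]).natDegree ≤ 1 := by
    refine (natDegree_add_le _ _).trans ?_
    refine max_le (by simp) ?_
    refine natDegree_mul_le.trans ?_
    have : (4 : (ZMod p)[X]).natDegree = 0 := natDegree_ofNat 4
    rw [this]
    simpa using d1
  have hneg : ∀ (a : ℕ) (f : (ZMod p)[X]), hm a (-f) = -hm a f := by
    intro a f
    have := hC a (-1) f
    rw [C_neg, C_1, neg_one_mul, neg_one_mul] at this
    exact this
  have hsub : ∀ (a : ℕ) (f g : (ZMod p)[X]), hm a (f - g) = hm a f - hm a g := by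
    intro a f g
    rw [sub_eq_add_neg, hadd, hneg, ← sub_eq_add_neg]
  have dvW : (derivative v * W - v * derivative W).natDegree ≤ 6 * h - 1 := by
    refine (natDegree_sub_le _ _).trans (max_le ?_ ?_)
    · refine natDegree_mul_le.trans ?_
      omega
    · refine natDegree_mul_le.trans ?_
      omega
  have dA : ((1 + X) * (derivative v * W - v * derivative W) + C (3 / 2) * W ^ 2).natDegree
      ≤ 6 * h := by
    refine (natDegree_add_le _ _).trans (max_le ?_ ?_)
    · refine natDegree_mul_le.trans ?_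
      omega
    · refine (natDegree_C_mul_le _ _).trans ?_
      refine natDegree_pow_le.trans ?_
      omega
  -- apply `hm`
  have e0 : hm (1 + 6 * h) (Th p v) = hm (1 + 6 * h) (C (3 / 2) * X ^ p * Pp p) := by rw [hfo]
  have hL : hm (1 + 6 * h) (Th p v) = (X ^ 2 - 1) *
      (3 * (hm (3 * h - 1) (derivative v) * hm (3 * h) W - hm (3 * h) v *
        hm (3 * h - 1) (derivative W)) + C (3 / 2) * hm (3 * h) W ^ 2) := by
    unfold Th
    rw [hmul 1 (6 * h) _ _ d1 dA, hX1, hadd, hC]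
    have f1 : hm (6 * h) ((1 + X) * (derivative v * W - v * derivative W)) =
        3 * (hm (3 * h - 1) (derivative v) * hm (3 * h) W - hm (3 * h) v *
        hm (3 * h - 1) (derivative W)) := by
      have e : 6 * h = 1 + (6 * h - 1) := by omega
      rw [e, hmul 1 (6 * h - 1) _ _ d2 dvW, hX2, hsub]
      have g1 : 6 * h - 1 = (3 * h - 1) + 3 * h := by omega
      have g2 : 6 * h - 1 = 3 * h + (3 * h - 1) := by omega
      have k1 : hm (6 * h - 1) (derivative v * W) = hm (3 * h - 1) (derivative v) * hm (3 * h) W := by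
        rw [g1, hmul (3 * h - 1) (3 * h) _ _ hvd' hWd]
      have k2 : hm (6 * h - 1) (v * derivative W) = hm (3 * h) v * hm (3 * h - 1) (derivative W) := by
        rw [g2, hmul (3 * h) (3 * h - 1) _ _ hVd hWd']
      rw [k1, k2]
    have f2 : hm (6 * h) (W ^ 2) = hm (3 * h) W ^ 2 := by
      have e : 6 * h = 3 * h + 3 * h := by omega
      rw [e, sq, hmul (3 * h) (3 * h) _ _ hWd hWd, sq]
    rw [f1, f2]
  have hR : hm (1 + 6 * h) (C (3 / 2) * X ^ p * Pp p) = C (3 / 2) * ((X ^ 2 - 1) ^ p *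
      ((C ((3 : ZMod p) ^ h) * X ^ (2 * h)) * hm (3 * h) W)) := by
    have e : 1 + 6 * h = p + (h + 3 * h) := by omega
    rw [mul_assoc, hC, e]
    have dP : (Pp p).natDegree ≤ h + 3 * h := by
      unfold Pp
      refine natDegree_mul_le.trans ?_
      refine add_le_add ?_ hWd
      refine natDegree_pow_le.trans ?_
      calc hh p * (1 + 4 * X : (ZMod p)[X]).natDegree ≤ hh p * 1 := Nat.mul_le_mul_left _ d3
        _ = h := by rw [mul_one]
    have dXp : ((X : (ZMod p)[X]) ^ p).natDegree ≤ p := natDegree_X_pow_le p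
    rw [hmul p (h + 3 * h) _ _ dXp dP, FOS_hm_pow hHM X d1 p, hX1]
    unfold Pp
    have dq : ((1 + 4 * X : (ZMod p)[X]) ^ h).natDegree ≤ h := by
      refine natDegree_pow_le.trans ?_
      calc h * (1 + 4 * X : (ZMod p)[X]).natDegree ≤ h * 1 := Nat.mul_le_mul_left _ d3
        _ = h := by rw [mul_one]
    rw [← hh0, ← hWdef, hmul h (3 * h) _ _ dq hWd, FOS_hm_pow hHM _ d3 h, hX3]
    have e3 : (3 * (X : (ZMod p)[X]) ^ 2) ^ h = C ((3 : ZMod p) ^ h) * X ^ (2 * h) := by
      rw [mul_pow, ← pow_mul, C_pow, map_ofNat C 3]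
    rw [e3]
  rw [hL, hR] at e0
  -- the derivatives
  have hd : ∀ f : (ZMod p)[X], f.natDegree ≤ 3 * h → (4 - X ^ 2) * derivative (hm (3 * h) f) =
      6 * X * hm (3 * h - 1) (derivative f) - 2 * (3 * (h : (ZMod p)[X])) * X * hm (3 * h) f := by
    intro f hf
    have := hder (3 * h - 1) f (by omega)
    have e : 3 * h - 1 + 1 = 3 * h := by omega
    rw [e] at this
    rw [this]
    have e' : ((3 * h - 1 : ℕ) : (ZMod p)[X]) + 1 = 3 * (h : (ZMod p)[X]) := by
      have : ((3 * h - 1 + 1 : ℕ) : (ZMod p)[X]) = ((3 * h : ℕ) : (ZMod p)[X]) := by rw [e]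
      push_cast at this
      exact this
    rw [e']
  have hdv := hd v hVd
  have hdW := hd W hWd
  have h2 : (2 : ZMod p) ≠ 0 := two_ne h5
  have h3 : (3 : ZMod p) ≠ 0 := three_ne h5
  have hXne : (X ^ 2 - 1 : (ZMod p)[X]) ≠ 0 := by
    intro h0
    have := congrArg (Polynomial.eval 0) h0
    simp at this
  have hFer : (3 : ZMod p) ^ h = 3 ^ (3 * h) := by
    have h1 : (3 : ZMod p) ^ (2 * h) = 1 := by
      have e : 2 * h = p - 1 := by omega
      rw [e]
      exact ZMod.pow_card_sub_one_eq_one h3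
    have e : 3 * h = h + 2 * h := by omega
    rw [e, pow_add, h1, mul_one]
  have hDW : derivative (hm (3 * h) W) = C (3 ^ (3 * h)) * (2 * (Ds p * derivative (Ds p))) := by
    rw [hW0, derivative_C_mul, derivative_sq]
    have : (C 2 : (ZMod p)[X]) = 2 := map_ofNat C 2
    rw [this]
    ring
  exact FOS_alg (hm (3 * h) v) (hm (3 * h) W) (hm (3 * h - 1) (derivative v))
    (hm (3 * h - 1) (derivative W)) (derivative (hm (3 * h) v)) (derivative (hm (3 * h) W))
    (Ds p) (derivative (Ds p)) (3 ^ (3 * h)) ((3 : ZMod p) ^ h) p h (by omega) h2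
    (pow_ne_zero _ h3) (FOS_Ds_ne p) hXne hFer e0 hph
    (by linear_combination (hm (3 * h) W) * hdv - (hm (3 * h) v) * hdW) hW0 hDW

end Pool.Agent.helper60.DA
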