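import Pool.Agent.helper60.DA.SpecV

/-! Row `dv:K1`, from `RD` and `PHD`. -/

set_option autoImplicit false

namespace Pool.Agent.helper60.DA

open Polynomial Finset Pool.Agent.helper60.DK

theorem K1_aux1 (p : ℕ) [Fact p.Prime] (hp : 5 ≤ p) (h2 : PHD_stmt) :
    (1 + X) * derivative (ph p (X : (ZMod p)[X]) 1) = 1 - X ^ (p - 1) := by
  have h := (h2 p hp).1 1
  rw [Int.cast_one] at h
  rw [h]
  have e1 : ((X : (ZMod p)[X]) + 1) ^ p = X ^ p + 1 := by
    rw [add_pow_char, one_pow]
  have e2 : ((X : (ZMod p)[X]) + 1) ^ p = (1 + X) * (X + 1) ^ (p - 1) := by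
    rw [add_comm (1 : (ZMod p)[X]) X, ← pow_succ', Nat.sub_add_cancel (by omega)]
  have e3 : (X : (ZMod p)[X]) ^ p = X * X ^ (p - 1) := by
    rw [← pow_succ', Nat.sub_add_cancel (by omega)]
  rw [mul_sub, ← e2, e1, e3]
  ring

theorem K1 (h1 : RD_stmt) (h2 : PHD_stmt) : K1_stmt := by
  intro p _ hp
  have hR := h1 p hp (nn p) (by unfold nn; omega) (by unfold nn; omega)
  have hl := K1_aux1 p hp h2
  have hX : derivative ((X : (ZMod p)[X]) ^ p) = 0 := by
    rw [derivative_X_pow, CharP.cast_eq_zero, C_0, zero_mul]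
  have e3 : (X : (ZMod p)[X]) ^ p = X * X ^ (p - 1) := by
    rw [← pow_succ', Nat.sub_add_cancel (by omega)]
  have hK : derivative (Kp p) = derivative (red p (Dz (nn p))) * ph p X 1 +
      red p (Dz (nn p)) * derivative (ph p X 1) - X ^ p * derivative (Rn p (nn p)) := by
    unfold Kp
    rw [derivative_sub, derivative_mul, derivative_mul, hX, zero_mul, zero_add]
  rw [hK]
  unfold Kp
  generalize red p (Dz (nn p)) = D at *
  generalize Rn p (nn p) = R at *
  generalize ph p (X : (ZMod p)[X]) 1 = l at *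
  rw [e3]
  linear_combination (D ^ 2) * hl - X ^ (p - 1) * hR

end Pool.Agent.helper60.DA
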