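import Pool.Agent.helper60.DA.SpecJ

/-! Row `dj:UNI`. -/

set_option autoImplicit false

namespace Pool.Agent.helper60.DA

theorem UNI_zero {p d e : ℤ} (hp : 0 < p) (hd : p ∣ d) (h : p ^ 2 = e ^ 2 + 3 * d ^ 2) : d = 0 := by
  obtain ⟨k, rfl⟩ := hd
  by_contra hne
  have hk : k ≠ 0 := by
    rintro rfl
    exact hne (mul_zero p)
  have hk2 : 1 ≤ k ^ 2 := by
    have : 0 < k ^ 2 := by positivity
    omega
  nlinarith [mul_le_mul_of_nonneg_left hk2 (sq_nonneg p), sq_nonneg e, pow_pos hp 2]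

theorem UNI_fin {p X Y x y : ℤ} (hp : 0 < p) (h1 : X ^ 2 + 3 * Y ^ 2 = p)
    (h2 : x ^ 2 + 3 * y ^ 2 = p) (h : (x * Y) ^ 2 = (X * y) ^ 2) : x ^ 2 = X ^ 2 := by
  have e : p * x ^ 2 = p * X ^ 2 := by
    have e1 : x ^ 2 * (3 * Y ^ 2) = x ^ 2 * (p - X ^ 2) := by rw [← h1]; ring
    have e2 : X ^ 2 * (3 * y ^ 2) = X ^ 2 * (p - x ^ 2) := by rw [← h2]; ring
    linear_combination 3 * h - e1 + e2
  exact mul_left_cancel₀ hp.ne' e

theorem UNI : UNI_stmt := by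
  intro p hpr h3 X Y x y h1 h2
  have hp : (0 : ℤ) < p := by exact_mod_cast (by omega : 0 < p)
  have hprime : Prime (p : ℤ) := Nat.prime_iff_prime_int.1 hpr.out
  have hdvd : (p : ℤ) ∣ (x * Y - X * y) * (x * Y + X * y) := by
    refine ⟨Y ^ 2 - y ^ 2, ?_⟩
    linear_combination (-y ^ 2) * h1 + Y ^ 2 * h2
  apply UNI_fin hp h1 h2
  rcases hprime.dvd_or_dvd hdvd with h | h
  · have h0 : x * Y - X * y = 0 := UNI_zero (e := x * X + 3 * (y * Y)) hp h (by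
      rw [sq (p : ℤ)]
      nth_rewrite 1 [← h1]
      rw [← h2]
      ring)
    rw [sub_eq_zero.1 h0]
  · have h0 : x * Y + X * y = 0 := UNI_zero (e := x * X - 3 * (y * Y)) hp h (by
      rw [sq (p : ℤ)]
      nth_rewrite 1 [← h1]
      rw [← h2]
      ring)
    rw [eq_neg_of_add_eq_zero_left h0, neg_sq]

end Pool.Agent.helper60.DA
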